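import Pool.Agent.H424R3.PowMTP

set_option autoImplicit false

open MeasureTheory Filter
open scoped ENNReal Topology

namespace Pool.Agent.Results.MP_868dd6_pr.TransientPowers

open Pool.Agent.H424R3.Pow

/-- Total mass of the weights. -/
noncomputable def Z : ℝ≥0∞ := ∑' w : Om, ((2 : ℝ≥0∞)⁻¹) ^ w.1

lemma two_inv : (2 : ℝ≥0∞)⁻¹ = ENNReal.ofReal (1 / 2) := by
  rw [one_div, ENNReal.ofReal_inv_of_pos (by norm_num)]
  norm_num

lemma Z_ne_top : Z ≠ ⊤ := by
  unfold Z
  rw [two_inv]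
  exact weight_sum (1 / 2) (by norm_num) (by norm_num)

lemma Z_ne_zero : Z ≠ 0 := by
  unfold Z
  rw [ne_eq, ENNReal.tsum_eq_zero]
  push Not
  refine ⟨⟨0, 0⟩, ?_⟩
  simp

/-- The law of the root (the root is at level `h` and of type `i` with probability proportional
to `2 ^ (-h)`). -/
noncomputable def law : @Measure Om ⊤ :=
  Z⁻¹ • @Measure.sum Om Om ⊤ (fun w => ((2 : ℝ≥0∞)⁻¹) ^ w.1 • @Measure.dirac Om ⊤ w)

lemma lintegral_law (g : Om → ℝ≥0∞) :
    @lintegral Om ⊤ law g = Z⁻¹ * ∑' w : Om, ((2 : ℝ≥0∞)⁻¹) ^ w.1 * g w := by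
  unfold law
  rw [lintegral_smul_measure, lintegral_sum_measure]
  simp only [smul_eq_mul]
  congr 1
  apply tsum_congr
  intro w
  rw [lintegral_smul_measure, @lintegral_dirac' Om ⊤ w g (by exact measurable_from_top)]
  rfl

lemma law_prob : @IsProbabilityMeasure Om ⊤ law := by
  refine @IsProbabilityMeasure.mk Om ⊤ law ?_
  rw [← @lintegral_one Om ⊤ law, lintegral_law]
  simp only [mul_one]
  exact ENNReal.inv_mul_cancel Z_ne_zero Z_ne_top

lemma law_apply (s : Set Om) :
    law s = Z⁻¹ * ∑' w : Om, ((2 : ℝ≥0∞)⁻¹) ^ w.1 * s.indicator (fun _ => 1) w := by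
  rw [← lintegral_law]
  exact (@lintegral_indicator_one Om ⊤ law s trivial).symm

/-- The canopy graph with a random root. -/
noncomputable def X : @RandomRootedGraph W Om ⊤ law :=
  @RandomRootedGraph.mk W Om ⊤ law (fun _ => can) (fun w => vtx w 0) (fun _ _ => trivial)
    (fun _ => trivial) (fun _ => can_connected) (fun _ x => can_finite x)

lemma X_unimodular : @RandomRootedGraph.Unimodular W Om ⊤ law X := by
  intro f _ hf
  show @lintegral Om ⊤ law (fun w => ∑' x, f can (vtx w 0) x)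
    = @lintegral Om ⊤ law (fun w => ∑' x, f can x (vtx w 0))
  rw [lintegral_law, lintegral_law]
  congr 1
  exact mtp (f can) (fun K x y => hf can can (flipIso K) x y)

lemma X_tail : @RandomRootedGraph.ExpTail W Om ⊤ law X := by
  -- exponential Markov inequality with e^(6c) = 3/2
  let c : ℝ := Real.log (3 / 2) / 6
  have hc : 0 < c := div_pos (Real.log_pos (by norm_num)) (by norm_num)
  let S : ℝ≥0∞ := ∑' w : Om, (ENNReal.ofReal (3 / 4)) ^ w.1
  have hS : S ≠ ⊤ := weight_sum (3 / 4) (by norm_num) (by norm_num)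
  let C0 : ℝ≥0∞ := Z⁻¹ * (ENNReal.ofReal (Real.exp (18 * c)) * S)
  have hC0 : C0 ≠ ⊤ :=
    ENNReal.mul_ne_top (ENNReal.inv_ne_top.2 Z_ne_zero) (ENNReal.mul_ne_top ENNReal.ofReal_ne_top hS)
  refine ⟨C0.toReal + 1, c, by positivity, hc, fun n _ => ?_⟩
  show law {w : Om | n ≤ (can.neighborSet (vtx w 0)).ncard} ≤ _
  rw [law_apply]
  have hterm : ∀ w : Om, ((2 : ℝ≥0∞)⁻¹) ^ w.1 *
      ({w : Om | n ≤ (can.neighborSet (vtx w 0)).ncard}).indicator (fun _ => 1) w
      ≤ ENNReal.ofReal (Real.exp (-(c * n))) * (ENNReal.ofReal (Real.exp (18 * c)) *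
        (ENNReal.ofReal (3 / 4)) ^ w.1) := by
    intro w
    by_cases hw : w ∈ {w : Om | n ≤ (can.neighborSet (vtx w 0)).ncard}
    · rw [Set.indicator_of_mem hw, mul_one, two_inv, ← ENNReal.ofReal_pow (by norm_num),
        ← ENNReal.ofReal_pow (by norm_num), ← ENNReal.ofReal_mul (by positivity),
        ← ENNReal.ofReal_mul (by positivity)]
      apply ENNReal.ofReal_le_ofReal
      have hn : n ≤ 6 * w.1 + 18 := le_trans hw (deg_le w.1 w.2)
      have hn' : (n : ℝ) ≤ 6 * w.1 + 18 := by exact_mod_cast hn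
      have hexp : Real.exp (6 * c) = 3 / 2 := by
        simp only [c]
        rw [mul_div_cancel₀ _ (by norm_num : (6 : ℝ) ≠ 0), Real.exp_log (by norm_num)]
      have h1 : (3 / 4 : ℝ) ^ w.1 = Real.exp (6 * c * w.1) * (1 / 2) ^ w.1 := by
        rw [mul_comm (6 * c) (w.1 : ℝ), Real.exp_nat_mul, hexp, ← mul_pow]
        norm_num
      rw [h1]
      have h2 : Real.exp (-(c * n)) * (Real.exp (18 * c) * (Real.exp (6 * c * w.1) * (1 / 2) ^ w.1))
          = Real.exp (-(c * n) + (18 * c + 6 * c * w.1)) * (1 / 2) ^ w.1 := by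
        rw [Real.exp_add, Real.exp_add]; ring
      rw [h2]
      have h3 : 0 ≤ -(c * n) + (18 * c + 6 * c * w.1) := by nlinarith
      have h4 : 1 ≤ Real.exp (-(c * n) + (18 * c + 6 * c * w.1)) := Real.one_le_exp h3
      have h5 : (0 : ℝ) ≤ (1 / 2) ^ w.1 := by positivity
      nlinarith
    · rw [Set.indicator_of_notMem hw, mul_zero]
      exact bot_le
  calc Z⁻¹ * ∑' w : Om, ((2 : ℝ≥0∞)⁻¹) ^ w.1 *
        ({w : Om | n ≤ (can.neighborSet (vtx w 0)).ncard}).indicator (fun _ => 1) w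
      ≤ Z⁻¹ * ∑' w : Om, ENNReal.ofReal (Real.exp (-(c * n))) *
        (ENNReal.ofReal (Real.exp (18 * c)) * (ENNReal.ofReal (3 / 4)) ^ w.1) := by
        exact mul_le_mul_right (ENNReal.tsum_le_tsum hterm) _
    _ = ENNReal.ofReal (Real.exp (-(c * n))) * C0 := by
        rw [ENNReal.tsum_mul_left, ENNReal.tsum_mul_left]
        simp only [C0, S]
        ring
    _ ≤ ENNReal.ofReal (Real.exp (-(c * n))) * ENNReal.ofReal (C0.toReal + 1) := by
        gcongr
        rw [← ENNReal.ofReal_toReal hC0]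
        apply ENNReal.ofReal_le_ofReal
        rw [ENNReal.toReal_ofReal ENNReal.toReal_nonneg]
        linarith
    _ = ENNReal.ofReal ((C0.toReal + 1) * Real.exp (-(c * n))) := by
        rw [← ENNReal.ofReal_mul (by positivity), mul_comm]

/-- There is a recurrent unimodular random rooted graph whose root degree has an exponential tail
and all of whose powers of order at least two are almost surely transient. -/
theorem result : ∃ (V : Type) (_ : Countable V) (Ω : Type) (_ : MeasurableSpace Ω)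
    (P : Measure Ω) (_ : IsProbabilityMeasure P) (X : RandomRootedGraph V P),
    X.Unimodular ∧ X.ExpTail ∧
    (∀ᵐ ω ∂P, Recurrent (X.graph ω) (X.root ω)) ∧
    ∀ k : ℕ, 2 ≤ k → ∀ᵐ ω ∂P, ¬ Recurrent (power (X.graph ω) k) (X.root ω) :=
  ⟨W, inferInstance, Om, ⊤, law, law_prob, X, X_unimodular, X_tail,
    Eventually.of_forall (fun w => can_recurrent (vtx w 0)),
    fun _ hk => Eventually.of_forall (fun w => power_transient hk (vtx w 0))⟩

end Pool.Agent.Results.MP_868dd6_pr.TransientPowers
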